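import Mathlib

namespace Pool.Agent.Results.MP_e4b752_al.RankTwo

open Function

/-- The variant `T_n^a` (product `x ⋆ y = x ∘ a ∘ y`) embeds in `T_m` (product `∘`). -/
def Embeds {n : ℕ} (a : Fin n → Fin n) (m : ℕ) : Prop :=
  ∃ φ : (Fin n → Fin n) → (Fin m → Fin m), Injective φ ∧ ∀ x y, φ (x ∘ a ∘ y) = φ x ∘ φ y

/-- The minimum degree of the variant. -/
noncomputable def mu {n : ℕ} (a : Fin n → Fin n) : ℕ := sInf {m | 1 ≤ m ∧ Embeds a m}

/-- The rank of a transformation. -/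
def rank {n : ℕ} (a : Fin n → Fin n) : ℕ := (Finset.univ.image a).card

/-- The sandwich element `0 ↦ 0`, everything else `↦ 1`. -/
def a0 (i : Fin 118) : Fin 118 := if i = 0 then 0 else 1

/-- First digit. -/
def d1 (i : Fin 118) : Fin 40 := ⟨(i.val + 2) / 3, by omega⟩
/-- Second digit. -/
def d2 (i : Fin 118) : Fin 4 := if i = 0 then 0 else ⟨i.val % 3 + 1, by omega⟩
/-- `a0` read off the first digit. -/
def e1 (p : Fin 40) : Fin 118 := if p = 0 then 0 else 1
/-- `a0` read off the second digit. -/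
def e2 (p : Fin 4) : Fin 118 := if p = 0 then 0 else 1
/-- The two members of a pair. -/
def g0 (k : Fin 59) : Fin 118 := ⟨2 * k.val, by omega⟩
/-- The two members of a pair. -/
def g1 (k : Fin 59) : Fin 118 := ⟨2 * k.val + 1, by omega⟩

lemma h1 : ∀ i, e1 (d1 i) = a0 i := by decide +kernel
lemma h2 : ∀ i, e2 (d2 i) = a0 i := by decide +kernel
lemma h3 : ∀ i j, d1 i = d1 j → d2 i = d2 j → i = j := by decide +kernel
lemma h4 : ∀ i, ∃ k, i = g0 k ∨ i = g1 k := by decide +kernel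

/-- The 233 points. -/
abbrev P := (Fin 118 ⊕ Fin 40) ⊕ (Fin 59 ⊕ Fin 4 × Fin 4)

/-- The representation. -/
def rep (x : Fin 118 → Fin 118) : P → P
  | .inl (.inl j) => .inl (.inr (d1 (x j)))
  | .inl (.inr p) => .inl (.inr (d1 (x (e1 p))))
  | .inr (.inl k) => .inr (.inr (d2 (x (g0 k)), d2 (x (g1 k))))
  | .inr (.inr p) => .inr (.inr (d2 (x (e2 p.1)), d2 (x (e2 p.2))))

lemma rep_mul (x y : Fin 118 → Fin 118) : rep (x ∘ a0 ∘ y) = rep x ∘ rep y := by
  funext p
  rcases p with (j | p) | (k | p) <;> simp [rep, h1, h2]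

lemma rep_inj : Injective rep := by
  intro x y h
  funext i
  have e1 := congrFun h (.inl (.inl i))
  obtain ⟨k, hk⟩ := h4 i
  have e2 := congrFun h (.inr (.inl k))
  simp only [rep, Sum.inl.injEq, Sum.inr.injEq, Prod.mk.injEq] at e1 e2
  refine h3 _ _ e1 ?_
  rcases hk with rfl | rfl
  exacts [e2.1, e2.2]

theorem result : ∃ (n : ℕ) (a : Fin n → Fin n), rank a = 2 ∧ mu a < 2 * n - rank a := by
  have hr : rank a0 = 2 := by decide +kernel
  refine ⟨118, a0, hr, ?_⟩
  have e : P ≃ Fin 233 := Fintype.equivFinOfCardEq (by simp)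
  have : mu a0 ≤ 233 := by
    refine Nat.sInf_le ⟨by norm_num, fun x => e ∘ rep x ∘ e.symm, fun x y h => rep_inj ?_,
      fun x y => ?_⟩
    · funext p
      simpa using congrFun h (e p)
    · funext p
      simp [rep_mul]
  rw [hr]; omega

end Pool.Agent.Results.MP_e4b752_al.RankTwo
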